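import Pool.Agent.T2h50.FR.Defs

open MeasureTheory Metric Set
open scoped ENNReal

namespace Pool.Agent.T2h50.FR

variable {n : ℕ}

theorem lintegral_smul {F : (Fin n → ℂ) → ℝ≥0∞} (hF : Measurable F) {c : ℂ} (hc : c ≠ 0) :
    ∫⁻ z, F (c • z) = ENNReal.ofReal ((‖c‖ ^ (2 * n))⁻¹) * ∫⁻ z, F z := by
  set L : (Fin n → ℂ) →ₗ[ℂ] (Fin n → ℂ) := c • LinearMap.id with hL
  set f : (Fin n → ℂ) →ₗ[ℝ] (Fin n → ℂ) := L.restrictScalars ℝ with hf
  have hdet : LinearMap.det f = ‖c‖ ^ (2 * n) := by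
    rw [hf, LinearMap.det_restrictScalars, hL, LinearMap.det_smul, LinearMap.det_id, mul_one,
      Module.finrank_fin_fun, map_pow, Algebra.norm_complex_apply, Complex.normSq_eq_norm_sq,
      ← pow_mul]
  have hpos : 0 < ‖c‖ ^ (2 * n) := by positivity
  have h0 : LinearMap.det f ≠ 0 := by rw [hdet]; exact hpos.ne'
  have hmap := Measure.map_linearMap_addHaar_eq_smul_addHaar (volume : Measure (Fin n → ℂ)) h0
  have hfm : Measurable (fun z : Fin n → ℂ => c • z) := by fun_prop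
  have e1 : ∫⁻ z, F (c • z) = ∫⁻ z, F z ∂(Measure.map f volume) := by
    have : (f : (Fin n → ℂ) → (Fin n → ℂ)) = fun z => c • z := by
      funext z; simp [hf, hL]
    rw [this, lintegral_map hF hfm]
  rw [e1, hmap, lintegral_smul_measure, hdet, abs_of_pos (inv_pos.2 hpos), smul_eq_mul]

/-- the weight `exp (-a |z|²) (1 + |z|²)^(-s)` -/
noncomputable def wt (a s u : ℝ) : ℝ := Real.exp (-(a * u)) * (1 + u) ^ (-s)

theorem wt_pos (a s : ℝ) {u : ℝ} (hu : 0 ≤ u) : 0 < wt a s u := by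
  unfold wt; positivity

/-- comparison of `|z|²` and `|e^η z|²` -/
theorem compare {u : ℝ} (hu : 0 ≤ u) {η : ℂ} (hη : ‖η‖ < 2 / (1 + u)) :
    ‖η‖ < 2 ∧ ‖Complex.exp η‖ ^ 2 * u - u ≤ 4 * Real.exp 4 ∧
    u - ‖Complex.exp η‖ ^ 2 * u ≤ 4 * Real.exp 4 ∧
    1 + u ≤ Real.exp 4 * (1 + ‖Complex.exp η‖ ^ 2 * u) ∧
    1 + ‖Complex.exp η‖ ^ 2 * u ≤ Real.exp 4 * (1 + u) := by
  have h1 : ‖η‖ * (1 + u) < 2 := by rwa [lt_div_iff₀ (by positivity)] at hη
  have h2 : ‖η‖ < 2 := by nlinarith [norm_nonneg η]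
  have h3 : |η.re| ≤ ‖η‖ := Complex.abs_re_le_norm η
  have hE : ‖Complex.exp η‖ ^ 2 = Real.exp (2 * η.re) := by
    rw [Complex.norm_exp, ← Real.exp_nat_mul]; norm_num
  rw [hE]
  have hab := abs_le.1 h3
  have hle : Real.exp (2 * η.re) ≤ Real.exp 4 := Real.exp_le_exp.2 (by linarith)
  have hle' : Real.exp (-(2 * η.re)) ≤ Real.exp 4 := Real.exp_le_exp.2 (by linarith)
  have hmul : Real.exp (2 * η.re) * Real.exp (-(2 * η.re)) = 1 := by
    rw [← Real.exp_add]; simp
  have hpos := Real.exp_pos (2 * η.re)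
  have hpos' := Real.exp_pos (-(2 * η.re))
  have h4 : (1:ℝ) ≤ Real.exp 4 := Real.one_le_exp (by norm_num)
  -- |e^x - 1| ≤ |x| e^|x|
  have k1 := Real.add_one_le_exp (2 * η.re)
  have k2 := Real.add_one_le_exp (-(2 * η.re))
  have hnn := norm_nonneg η
  have hue : ‖η‖ * u < 2 := by nlinarith
  have k3 : Real.exp (2 * η.re) - 1 ≤ 2 * ‖η‖ * Real.exp 4 := by
    -- e^x - 1 ≤ x e^x
    have : Real.exp (2 * η.re) - 1 ≤ (2 * η.re) * Real.exp (2 * η.re) := by nlinarith
    have h5 : (2 * η.re) * Real.exp (2 * η.re) ≤ 2 * ‖η‖ * Real.exp (2 * η.re) := by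
      nlinarith
    have h6 : 2 * ‖η‖ * Real.exp (2 * η.re) ≤ 2 * ‖η‖ * Real.exp 4 := by
      apply mul_le_mul_of_nonneg_left hle (by positivity)
    linarith
  have k4 : 1 - Real.exp (2 * η.re) ≤ 2 * ‖η‖ * Real.exp 4 := by
    have : 1 - Real.exp (2 * η.re) ≤ -(2 * η.re) := by linarith
    nlinarith
  refine ⟨h2, ?_, ?_, ?_, ?_⟩
  · nlinarith [mul_le_mul_of_nonneg_right k3 hu, Real.exp_pos 4, mul_nonneg hnn hu]
  · nlinarith [mul_le_mul_of_nonneg_right k4 hu, Real.exp_pos 4, mul_nonneg hnn hu]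
  · have : u ≤ Real.exp 4 * (Real.exp (2 * η.re) * u) := by
      have h7 : Real.exp (-(2 * η.re)) * (Real.exp (2 * η.re) * u) ≤
          Real.exp 4 * (Real.exp (2 * η.re) * u) :=
        mul_le_mul_of_nonneg_right hle' (by positivity)
      nlinarith
    linarith
  · have : Real.exp (2 * η.re) * u ≤ Real.exp 4 * u := mul_le_mul_of_nonneg_right hle hu
    linarith

theorem wt_compare {a s : ℝ} (ha : 0 ≤ a) (hs : 0 ≤ s) {u v : ℝ} (hu : 0 ≤ u) (hv : 0 ≤ v)
    (h1 : v - u ≤ 4 * Real.exp 4) (h2 : 1 + v ≤ Real.exp 4 * (1 + u)) :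
    wt a s u ≤ (Real.exp (a * (4 * Real.exp 4)) * Real.exp 4 ^ s) * wt a s v := by
  unfold wt
  have e1 : Real.exp (-(a * u)) ≤ Real.exp (a * (4 * Real.exp 4)) * Real.exp (-(a * v)) := by
    rw [← Real.exp_add]
    apply Real.exp_le_exp.2
    nlinarith
  have e2 : (1 + u) ^ (-s) ≤ Real.exp 4 ^ s * (1 + v) ^ (-s) := by
    rw [Real.rpow_neg (by positivity), Real.rpow_neg (by positivity), ← div_eq_mul_inv,
      le_div_iff₀ (by positivity), inv_mul_le_iff₀ (by positivity),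
      ← Real.mul_rpow (by positivity) (by positivity)]
    apply Real.rpow_le_rpow (by positivity) _ hs
    linarith
  calc Real.exp (-(a * u)) * (1 + u) ^ (-s)
      ≤ (Real.exp (a * (4 * Real.exp 4)) * Real.exp (-(a * v))) * (Real.exp 4 ^ s * (1 + v) ^ (-s)) :=
        mul_le_mul e1 e2 (by positivity) (by positivity)
    _ = _ := by ring

/-- averages over the disks of radius `2 / (1 + |z|²)` in the complex rays -/
noncomputable def av (F : (Fin n → ℂ) → ℝ≥0∞) (z : Fin n → ℂ) : ℝ≥0∞ :=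
  ∫⁻ η in ball (0 : ℂ) (2 / (1 + nsq z)), F (Complex.exp η • z)

theorem av_bound (n : ℕ) {a s : ℝ} (ha : 0 ≤ a) (hs : 0 ≤ s) : ∃ C : ℝ, ∀ F : (Fin n → ℂ) → ℝ≥0∞,
    Measurable F →
    ∫⁻ z, ENNReal.ofReal ((1 + nsq z) ^ 2 * wt a s (nsq z)) * av F z ≤
      ENNReal.ofReal C * ∫⁻ z, ENNReal.ofReal (wt a s (nsq z)) * F z := by
  set K : ℝ := Real.exp 4 ^ 2 * (Real.exp (a * (4 * Real.exp 4)) * Real.exp 4 ^ s) with hK
  have hK0 : 0 < K := by positivity
  refine ⟨K * (Real.exp 4 ^ n * (4 * Real.exp 4 ^ 2 * Real.pi)), fun F hF => ?_⟩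
  set H : (Fin n → ℂ) → ℝ≥0∞ := fun w =>
    ENNReal.ofReal ((1 + nsq w) ^ 2 * wt a s (nsq w)) * F w with hH
  have hwm : Measurable (fun w : Fin n → ℂ => (1 + nsq w) ^ 2 * wt a s (nsq w)) := by
    unfold wt
    have := (continuous_nsq (n := n)).measurable
    fun_prop
  have hwm2 : Measurable (fun w : Fin n → ℂ => wt a s (nsq w)) := by
    unfold wt
    have := (continuous_nsq (n := n)).measurable
    fun_prop
  have hHm : Measurable H := (hwm.ennreal_ofReal).mul hF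
  set S : Set (ℂ × (Fin n → ℂ)) := {q | ‖q.1‖ * (1 + nsq q.2) < 2 * Real.exp 4} with hS
  have hSm : MeasurableSet S := by
    apply (isOpen_lt _ continuous_const).measurableSet
    have := continuous_nsq (n := n)
    fun_prop
  set Φ : ℂ × (Fin n → ℂ) → ℝ≥0∞ := S.indicator (fun q => H q.2) with hΦ
  have hΦm : Measurable Φ := (hHm.comp measurable_snd).indicator hSm
  -- pointwise
  have hpt : ∀ z, ENNReal.ofReal ((1 + nsq z) ^ 2 * wt a s (nsq z)) * av F z ≤
      ENNReal.ofReal K * ∫⁻ η in ball (0 : ℂ) 2, Φ (η, Complex.exp η • z) := by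
    intro z
    have hz := nsq_nonneg z
    have hsub : ball (0 : ℂ) (2 / (1 + nsq z)) ⊆ ball 0 2 := by
      apply ball_subset_ball
      rw [div_le_iff₀ (by positivity)]
      linarith
    unfold av
    rw [← lintegral_const_mul' _ _ ENNReal.ofReal_ne_top,
      ← lintegral_const_mul' _ _ ENNReal.ofReal_ne_top]
    refine le_trans ?_ (lintegral_mono_set hsub)
    apply setLIntegral_mono' measurableSet_ball
    intro η hη
    rw [mem_ball_zero_iff] at hη
    obtain ⟨c1, c2, c3, c4, c5⟩ := compare hz hη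
    have hv : nsq (Complex.exp η • z) = ‖Complex.exp η‖ ^ 2 * nsq z := nsq_smul _ _
    rw [← hv] at c2 c3 c4 c5
    have hmem : (η, Complex.exp η • z) ∈ S := by
      simp only [hS, Set.mem_ofPred_eq]
      have h1 : ‖η‖ * (1 + nsq z) < 2 := by rwa [lt_div_iff₀ (by positivity)] at hη
      calc ‖η‖ * (1 + nsq (Complex.exp η • z)) ≤ ‖η‖ * (Real.exp 4 * (1 + nsq z)) := by
            gcongr
        _ = (‖η‖ * (1 + nsq z)) * Real.exp 4 := by ring
        _ < 2 * Real.exp 4 := by gcongr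
    simp only [hΦ, indicator_of_mem hmem, hH]
    rw [← mul_assoc, ← ENNReal.ofReal_mul hK0.le]
    refine mul_le_mul' (ENNReal.ofReal_le_ofReal ?_) le_rfl
    have hvn := nsq_nonneg (Complex.exp η • z)
    have hw := wt_compare (a := a) (s := s) ha hs hz hvn c2 c5
    have hsq : (1 + nsq z) ^ 2 ≤ Real.exp 4 ^ 2 * (1 + nsq (Complex.exp η • z)) ^ 2 := by
      rw [← mul_pow]
      apply pow_le_pow_left₀ (by positivity) c4
    calc (1 + nsq z) ^ 2 * wt a s (nsq z)
        ≤ (Real.exp 4 ^ 2 * (1 + nsq (Complex.exp η • z)) ^ 2) *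
          ((Real.exp (a * (4 * Real.exp 4)) * Real.exp 4 ^ s) * wt a s (nsq (Complex.exp η • z))) :=
          mul_le_mul hsq hw (wt_pos a s hz).le (by positivity)
      _ = _ := by rw [hK]; ring
  refine (lintegral_mono hpt).trans ?_
  rw [lintegral_const_mul' _ _ ENNReal.ofReal_ne_top]
  have hsw : ∫⁻ z : Fin n → ℂ, ∫⁻ η in ball (0 : ℂ) 2, Φ (η, Complex.exp η • z)
      = ∫⁻ η in ball (0 : ℂ) 2, ∫⁻ z : Fin n → ℂ, Φ (η, Complex.exp η • z) := by
    rw [lintegral_lintegral_swap]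
    apply Measurable.aemeasurable
    apply hΦm.comp
    have : Measurable fun x : (Fin n → ℂ) × ℂ => Complex.exp x.2 • x.1 := by fun_prop
    exact (measurable_snd).prodMk this
  rw [hsw]
  have h2 : ∫⁻ η in ball (0 : ℂ) 2, ∫⁻ z : Fin n → ℂ, Φ (η, Complex.exp η • z)
      ≤ ∫⁻ η in ball (0 : ℂ) 2, ENNReal.ofReal (Real.exp 4 ^ n) * ∫⁻ w : Fin n → ℂ, Φ (η, w) := by
    apply setLIntegral_mono' measurableSet_ball
    intro η hη
    rw [mem_ball_zero_iff] at hη
    rw [lintegral_smul (F := fun w => Φ (η, w)) (hΦm.comp (measurable_const.prodMk measurable_id))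
      (Complex.exp_ne_zero η)]
    gcongr
    rw [Complex.norm_exp, pow_mul, ← inv_pow]
    apply pow_le_pow_left₀ (by positivity)
    rw [← Real.exp_nat_mul, ← Real.exp_neg]
    apply Real.exp_le_exp.2
    have := (abs_le.1 (Complex.abs_re_le_norm η)).1
    push_cast
    linarith
  have h3 : ∫⁻ η in ball (0 : ℂ) 2, ∫⁻ w : Fin n → ℂ, Φ (η, w)
      ≤ ENNReal.ofReal (4 * Real.exp 4 ^ 2 * Real.pi) *
        ∫⁻ w, ENNReal.ofReal (wt a s (nsq w)) * F w := by
    rw [lintegral_lintegral_swap (f := fun η w => Φ (η, w)) hΦm.aemeasurable]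
    rw [← lintegral_const_mul' _ _ ENNReal.ofReal_ne_top]
    apply lintegral_mono
    intro w
    have hw := nsq_nonneg w
    have e1 : ∀ η : ℂ, Φ (η, w) ≤ (ball (0 : ℂ) (2 * Real.exp 4 / (1 + nsq w))).indicator
        (fun _ => H w) η := by
      intro η
      by_cases h : (η, w) ∈ S
      · have hb : η ∈ ball (0 : ℂ) (2 * Real.exp 4 / (1 + nsq w)) := by
          rw [mem_ball_zero_iff, lt_div_iff₀ (by positivity)]
          exact h
        simp only [hΦ, indicator_of_mem h, indicator_of_mem hb, le_refl]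
      · simp only [hΦ, indicator_of_notMem h, zero_le]
    calc ∫⁻ η in ball (0 : ℂ) 2, Φ (η, w) ≤ ∫⁻ η, Φ (η, w) := setLIntegral_le_lintegral _ _
      _ ≤ ∫⁻ η, (ball (0 : ℂ) (2 * Real.exp 4 / (1 + nsq w))).indicator (fun _ => H w) η :=
          lintegral_mono e1
      _ = H w * volume (ball (0 : ℂ) (2 * Real.exp 4 / (1 + nsq w))) := by
          rw [lintegral_indicator measurableSet_ball, setLIntegral_const]
      _ = ENNReal.ofReal (4 * Real.exp 4 ^ 2 * Real.pi) * (ENNReal.ofReal (wt a s (nsq w)) * F w) := by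
          have hr : 0 ≤ 2 * Real.exp 4 / (1 + nsq w) := by positivity
          have hvol : volume (ball (0 : ℂ) (2 * Real.exp 4 / (1 + nsq w)))
              = ENNReal.ofReal ((2 * Real.exp 4 / (1 + nsq w)) ^ 2 * Real.pi) := by
            rw [Complex.volume_ball, ENNReal.ofReal_mul (by positivity), ENNReal.ofReal_pow hr,
              ← NNReal.coe_real_pi, ENNReal.ofReal_coe_nnreal]
          have hwp := wt_pos a s hw
          rw [hvol, hH]
          simp only
          rw [mul_right_comm, ← ENNReal.ofReal_mul (by positivity),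
            ← mul_assoc (ENNReal.ofReal (4 * Real.exp 4 ^ 2 * Real.pi)),
            ← ENNReal.ofReal_mul (by positivity)]
          congr 2
          field_simp
          ring
  calc ENNReal.ofReal K * ∫⁻ η in ball (0 : ℂ) 2, ∫⁻ z : Fin n → ℂ, Φ (η, Complex.exp η • z)
      ≤ ENNReal.ofReal K * (ENNReal.ofReal (Real.exp 4 ^ n) *
          (ENNReal.ofReal (4 * Real.exp 4 ^ 2 * Real.pi) *
          ∫⁻ w, ENNReal.ofReal (wt a s (nsq w)) * F w)) := by
        refine mul_le_mul' le_rfl (h2.trans ?_)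
        rw [lintegral_const_mul' _ _ ENNReal.ofReal_ne_top]
        exact mul_le_mul' le_rfl h3
    _ = _ := by
        rw [← mul_assoc, ← mul_assoc, ← ENNReal.ofReal_mul hK0.le, ← ENNReal.ofReal_mul (by positivity)]
        congr 2
        ring

end Pool.Agent.T2h50.FR
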