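import Mathlib
import Pool.Agent.Helper857.A1
import Pool.Agent.H402R2.SubMean

/-! Radial derivatives and Fock spaces: definitions and basic facts. -/

open MeasureTheory Metric Set
open scoped ENNReal

namespace Pool.Agent.T2h50.FR

/-- `|z|² = |z₁|² + ⋯ + |zₙ|²` -/
noncomputable def nsq {n : ℕ} (z : Fin n → ℂ) : ℝ := ∑ k, ‖z k‖ ^ 2

/-- The class `L^p_α`: `f(z) exp (-α |z|² / 2)` is in `L^p` for the Lebesgue measure of `ℂⁿ`. -/
def InL {n : ℕ} (p : ℝ≥0∞) (α : ℝ) (f : (Fin n → ℂ) → ℂ) : Prop :=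
  MemLp (fun z => f z * (Real.exp (-(α * nsq z / 2)) : ℂ)) p volume

/-- The Fock space `F^p_α = L^p_α ∩ H(ℂⁿ)`. -/
def Fock (n : ℕ) (p : ℝ≥0∞) (α : ℝ) : Set ((Fin n → ℂ) → ℂ) :=
  {f | InL p α f ∧ Differentiable ℂ f}

/-- The radial derivative `R f (z) = ∑ z_k ∂f/∂z_k (z)`. -/
noncomputable def radial {n : ℕ} (f : (Fin n → ℂ) → ℂ) (z : Fin n → ℂ) : ℂ :=
  ∑ k, z k * fderiv ℂ f z (Pi.single k 1)

variable {n : ℕ}

theorem nsq_nonneg (z : Fin n → ℂ) : 0 ≤ nsq z := Finset.sum_nonneg fun _ _ => by positivity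

theorem nsq_smul (c : ℂ) (z : Fin n → ℂ) : nsq (c • z) = ‖c‖ ^ 2 * nsq z := by
  simp only [nsq, Pi.smul_apply, smul_eq_mul, norm_mul, mul_pow, Finset.mul_sum]

theorem continuous_nsq : Continuous (nsq : (Fin n → ℂ) → ℝ) := by
  unfold nsq; fun_prop

theorem radial_eq {f : (Fin n → ℂ) → ℂ} (z : Fin n → ℂ) : radial f z = fderiv ℂ f z z := by
  have h : z = ∑ k, z k • (Pi.single k (1 : ℂ) : Fin n → ℂ) := by
    funext j
    simp [Finset.sum_apply, Pi.single_apply]
  conv_rhs => rw [h]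
  rw [map_sum]
  simp only [map_smul, smul_eq_mul]
  rw [← h]
  rfl

theorem differentiable_radial {f : (Fin n → ℂ) → ℂ} (hf : Differentiable ℂ f) :
    Differentiable ℂ (radial f) := by
  unfold radial
  have h : ∀ k : Fin n, Differentiable ℂ (fun z : Fin n → ℂ => z k * fderiv ℂ f z (Pi.single k 1)) := by
    intro k
    apply Differentiable.mul
    · fun_prop
    · exact Pool.Agent.Helper857.differentiable_fderiv_apply hf _
  exact Differentiable.fun_sum fun k _ => h k

theorem differentiable_iter {f : (Fin n → ℂ) → ℂ} (hf : Differentiable ℂ f) (N : ℕ) :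
    Differentiable ℂ (radial^[N] f) := by
  induction N with
  | zero => exact hf
  | succ N ih => rw [Function.iterate_succ_apply']; exact differentiable_radial ih

/-- the restriction of `f` to the complex ray through `z` -/
noncomputable def ray (f : (Fin n → ℂ) → ℂ) (z : Fin n → ℂ) (ζ : ℂ) : ℂ := f (Complex.exp ζ • z)

theorem hasDerivAt_ray {f : (Fin n → ℂ) → ℂ} (hf : Differentiable ℂ f) (z : Fin n → ℂ) (ζ : ℂ) :
    HasDerivAt (ray f z) (ray (radial f) z ζ) ζ := by
  have h1 : HasDerivAt (fun ζ : ℂ => Complex.exp ζ • z) (Complex.exp ζ • z) ζ :=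
    (Complex.hasDerivAt_exp ζ).smul_const z
  have h2 := (hf (Complex.exp ζ • z)).hasFDerivAt.comp_hasDerivAt ζ h1
  unfold ray
  rw [radial_eq]
  exact h2

theorem differentiable_ray {f : (Fin n → ℂ) → ℂ} (hf : Differentiable ℂ f) (z : Fin n → ℂ) :
    Differentiable ℂ (ray f z) := fun ζ => (hasDerivAt_ray hf z ζ).differentiableAt

theorem iteratedDeriv_ray {f : (Fin n → ℂ) → ℂ} (hf : Differentiable ℂ f) (z : Fin n → ℂ) (N : ℕ) :
    iteratedDeriv N (ray f z) = ray (radial^[N] f) z := by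
  induction N with
  | zero => simp
  | succ N ih =>
    rw [iteratedDeriv_succ, ih, Function.iterate_succ_apply']
    funext ζ
    exact (hasDerivAt_ray (differentiable_iter hf N) z ζ).deriv

theorem ray_zero (f : (Fin n → ℂ) → ℂ) (z : Fin n → ℂ) : ray f z 0 = f z := by
  simp [ray]

end Pool.Agent.T2h50.FR
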