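import Pool.Agent.T2h50.FR.Pt

open MeasureTheory Metric Set
open scoped ENNReal

namespace Pool.Agent.T2h50.FR

variable {n : ℕ}

/-- the weighted integral of `|G|^p` -/
noncomputable def J (p a s : ℝ) (G : (Fin n → ℂ) → ℂ) : ℝ≥0∞ :=
  ∫⁻ z, ENNReal.ofReal (wt a s (nsq z)) * ‖G z‖ₑ ^ p

theorem enorm_rpow_eq {p : ℝ} (hp : 0 < p) (x : ℂ) : ‖x‖ₑ ^ p = ENNReal.ofReal (‖x‖ ^ p) := by
  rw [← ofReal_norm, ENNReal.ofReal_rpow_of_nonneg (norm_nonneg _) hp.le]

/-- real bound on the small disk from the average -/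
theorem bound_of_av {G : (Fin n → ℂ) → ℂ} (hG : Differentiable ℂ G) {p : ℝ} (hp : 0 < p)
    (z : Fin n → ℂ) (hfin : av (fun w => ‖G w‖ₑ ^ p) z ≠ ⊤) :
    ∃ M : ℝ, 0 ≤ M ∧ (∀ ζ : ℂ, ‖ζ‖ ≤ 1 / (1 + nsq z) → ‖ray G z ζ‖ ≤ M) ∧
      ENNReal.ofReal (M ^ p) = ENNReal.ofReal ((1 + nsq z) ^ 2) * av (fun w => ‖G w‖ₑ ^ p) z := by
  set A := ENNReal.ofReal ((1 + nsq z) ^ 2) * av (fun w => ‖G w‖ₑ ^ p) z with hA
  have hA' : A ≠ ⊤ := ENNReal.mul_ne_top ENNReal.ofReal_ne_top hfin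
  refine ⟨A.toReal ^ (1 / p), by positivity, fun ζ hζ => ?_, ?_⟩
  · have h := submean hG hp z hζ
    rw [enorm_rpow_eq hp, ← hA, ← ENNReal.ofReal_toReal hA',
      ENNReal.ofReal_le_ofReal_iff ENNReal.toReal_nonneg] at h
    rw [← Real.rpow_le_rpow_iff (norm_nonneg _) (by positivity) hp, ← Real.rpow_mul (by positivity),
      one_div, inv_mul_cancel₀ hp.ne', Real.rpow_one]
    exact h
  · rw [← Real.rpow_mul (by positivity), one_div, inv_mul_cancel₀ hp.ne', Real.rpow_one,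
      ENNReal.ofReal_toReal hA']

theorem measurable_pow {G : (Fin n → ℂ) → ℂ} (hG : Continuous G) (p : ℝ) :
    Measurable fun w => ‖G w‖ₑ ^ p :=
  (hG.measurable.enorm).pow_const p

/-- the direct implication, finite exponents -/
theorem forward {p a : ℝ} (hp : 0 < p) (ha : 0 ≤ a) {f : (Fin n → ℂ) → ℂ}
    (hf : Differentiable ℂ f) (N : ℕ) (h : J p a 0 f ≠ ⊤) : J p a (N * p) (radial^[N] f) ≠ ⊤ := by
  obtain ⟨C, hC⟩ := av_bound n (a := a) (s := 0) ha le_rfl
  have h1 := hC (fun w => ‖f w‖ₑ ^ p) (measurable_pow hf.continuous p)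
  have h2 : ∀ z, ENNReal.ofReal (wt a (N * p) (nsq z)) * ‖(radial^[N] f) z‖ₑ ^ p ≤
      ENNReal.ofReal ((N.factorial : ℝ) ^ p) *
        (ENNReal.ofReal ((1 + nsq z) ^ 2 * wt a 0 (nsq z)) * av (fun w => ‖f w‖ₑ ^ p) z) := by
    intro z
    have hz := nsq_nonneg z
    have hw0 := wt_pos a 0 hz
    by_cases hfin : av (fun w => ‖f w‖ₑ ^ p) z = ⊤
    · rw [hfin, ENNReal.mul_top, ENNReal.mul_top]
      · exact le_top
      · have : 0 < (N.factorial : ℝ) ^ p := by positivity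
        simpa using this
      · have : 0 < (1 + nsq z) ^ 2 * wt a 0 (nsq z) := by positivity
        simpa using this
    · obtain ⟨M, hM0, hM, hMp⟩ := bound_of_av hf hp z hfin
      have h3 := cauchy hf z (by positivity) hM N
      have h4 : ‖(radial^[N] f) z‖ ≤ (N.factorial * (1 + nsq z) ^ N) * M := by
        refine h3.trans (le_of_eq ?_)
        rw [one_div, inv_pow, div_inv_eq_mul]; ring
      have h5 : ‖(radial^[N] f) z‖ ^ p ≤ (N.factorial : ℝ) ^ p * (1 + nsq z) ^ (N * p) * M ^ p := by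
        refine (Real.rpow_le_rpow (norm_nonneg _) h4 hp.le).trans (le_of_eq ?_)
        rw [Real.mul_rpow (by positivity) hM0, Real.mul_rpow (by positivity) (by positivity),
          ← Real.rpow_natCast, ← Real.rpow_mul (by positivity)]
      rw [enorm_rpow_eq hp, ENNReal.ofReal_mul (by positivity : (0:ℝ) ≤ (1 + nsq z) ^ 2),
        mul_right_comm, ← hMp, ← ENNReal.ofReal_mul (wt_pos _ _ hz).le,
        ← ENNReal.ofReal_mul (by positivity : (0:ℝ) ≤ M ^ p), ← ENNReal.ofReal_mul (by positivity)]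
      apply ENNReal.ofReal_le_ofReal
      have e : wt a (N * p) (nsq z) * (1 + nsq z) ^ (N * p) = wt a 0 (nsq z) := by
        unfold wt
        rw [neg_zero, Real.rpow_zero, mul_one, Real.rpow_neg (by positivity), mul_assoc,
          inv_mul_cancel₀ (by positivity), mul_one]
      calc wt a (N * p) (nsq z) * ‖(radial^[N] f) z‖ ^ p
          ≤ wt a (N * p) (nsq z) * ((N.factorial : ℝ) ^ p * (1 + nsq z) ^ (N * p) * M ^ p) :=
            mul_le_mul_of_nonneg_left h5 (wt_pos _ _ hz).le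
        _ = (wt a (N * p) (nsq z) * (1 + nsq z) ^ (N * p)) * ((N.factorial : ℝ) ^ p * M ^ p) := by
            ring
        _ = _ := by rw [e]; ring
  have h3 : J p a (N * p) (radial^[N] f) ≤ ENNReal.ofReal ((N.factorial : ℝ) ^ p) *
      (ENNReal.ofReal C * J p a 0 f) := by
    unfold J
    refine (lintegral_mono h2).trans ?_
    rw [lintegral_const_mul' _ _ ENNReal.ofReal_ne_top]
    exact mul_le_mul' le_rfl h1
  exact ne_top_of_le_ne_top (ENNReal.mul_ne_top ENNReal.ofReal_ne_top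
    (ENNReal.mul_ne_top ENNReal.ofReal_ne_top h)) h3

end Pool.Agent.T2h50.FR
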