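import Pool.Agent.T2h50.FR.Rec

open MeasureTheory Metric Set
open scoped ENNReal

namespace Pool.Agent.T2h50.FR

variable {n : ℕ}

/-- weighted boundedness -/
def Bd (a s : ℝ) (G : (Fin n → ℂ) → ℂ) : Prop := ∃ M : ℝ, ∀ z, wt a s (nsq z) * ‖G z‖ ≤ M

theorem bd_ray {a s : ℝ} (ha : 0 ≤ a) (hs : 0 ≤ s) {G : (Fin n → ℂ) → ℂ} (h : Bd a s G) :
    ∃ M : ℝ, 0 ≤ M ∧ ∀ z : Fin n → ℂ, ∀ ζ : ℂ, ‖ζ‖ ≤ 1 / (1 + nsq z) →
      ‖ray G z ζ‖ ≤ M / wt a s (nsq z) := by
  obtain ⟨M, hM⟩ := h
  have hM0 : 0 ≤ M := le_trans (mul_nonneg (wt_pos a s (nsq_nonneg 0)).le (norm_nonneg _)) (hM 0)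
  set K : ℝ := Real.exp (a * (4 * Real.exp 4)) * Real.exp 4 ^ s with hK
  refine ⟨K * M, by positivity, fun z ζ hζ => ?_⟩
  have hz := nsq_nonneg z
  have hlt : ‖ζ‖ < 2 / (1 + nsq z) := by
    refine lt_of_le_of_lt hζ ?_
    gcongr
    norm_num
  obtain ⟨c1, c2, c3, c4, c5⟩ := compare hz hlt
  rw [← nsq_smul] at c2 c5
  have h1 := wt_compare (a := a) (s := s) ha hs hz (nsq_nonneg _) c2 c5
  have h2 := hM (Complex.exp ζ • z)
  rw [le_div_iff₀ (wt_pos _ _ hz)]
  unfold ray
  calc ‖G (Complex.exp ζ • z)‖ * wt a s (nsq z)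
      ≤ ‖G (Complex.exp ζ • z)‖ * (K * wt a s (nsq (Complex.exp ζ • z))) :=
        mul_le_mul_of_nonneg_left h1 (norm_nonneg _)
    _ = K * (wt a s (nsq (Complex.exp ζ • z)) * ‖G (Complex.exp ζ • z)‖) := by ring
    _ ≤ K * M := mul_le_mul_of_nonneg_left h2 (by positivity)

theorem wt_nat {a : ℝ} (N : ℕ) {u : ℝ} (hu : 0 ≤ u) : wt a N u * (1 + u) ^ N = wt a 0 u := by
  unfold wt
  rw [neg_zero, Real.rpow_zero, mul_one, Real.rpow_neg (by positivity), Real.rpow_natCast, mul_assoc,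
    inv_mul_cancel₀ (by positivity), mul_one]

theorem forward_inf {a : ℝ} (ha : 0 ≤ a) {f : (Fin n → ℂ) → ℂ}
    (hf : Differentiable ℂ f) (N : ℕ) (h : Bd a 0 f) : Bd a N (radial^[N] f) := by
  obtain ⟨M, hM0, hM⟩ := bd_ray ha le_rfl h
  refine ⟨N.factorial * M, fun z => ?_⟩
  have hz := nsq_nonneg z
  have h1 := cauchy hf z (by positivity) (hM z) N
  have hw := wt_pos a N hz
  have hw0 := wt_pos a 0 hz
  calc wt a N (nsq z) * ‖(radial^[N] f) z‖
      ≤ wt a N (nsq z) * (N.factorial * (M / wt a 0 (nsq z)) / (1 / (1 + nsq z)) ^ N) :=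
        mul_le_mul_of_nonneg_left h1 hw.le
    _ = (wt a N (nsq z) * (1 + nsq z) ^ N) / wt a 0 (nsq z) * (N.factorial * M) := by
        rw [one_div, inv_pow, div_inv_eq_mul]; ring
    _ = N.factorial * M := by rw [wt_nat N hz, div_self hw0.ne', one_mul]

theorem wt_le_one {a s : ℝ} (ha : 0 ≤ a) (hs : 0 ≤ s) {u : ℝ} (hu : 0 ≤ u) : wt a s u ≤ 1 := by
  unfold wt
  have e1 : Real.exp (-(a * u)) ≤ 1 := by
    rw [Real.exp_le_one_iff]
    have : 0 ≤ a * u := by positivity
    linarith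
  have e2 : (1 + u) ^ (-s) ≤ 1 :=
    Real.rpow_le_one_of_one_le_of_nonpos (by linarith) (by linarith)
  calc _ ≤ (1:ℝ) * 1 := mul_le_mul e1 e2 (by positivity) (by norm_num)
    _ = 1 := one_mul 1

theorem step_inf {a s : ℝ} (ha : 0 < a) (hs : 0 ≤ s) {g : (Fin n → ℂ) → ℂ}
    (hg : Differentiable ℂ g) (h : Bd a (s + 1) (radial g)) : Bd a s g := by
  obtain ⟨M, hM0, hM⟩ := bd_ray ha.le (by linarith) h
  obtain ⟨M₁, hM₁⟩ := (isCompact_closedBall (0 : Fin n → ℂ) ((3 : ℝ) + 1)).exists_bound_of_continuousOn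
    hg.continuous.continuousOn
  have h1 : Real.exp (-a) < 1 := by rw [Real.exp_lt_one_iff]; linarith
  have h1' : 0 < 1 - Real.exp (-a) := by linarith
  set M' : ℝ := max M₁ (M / (1 - Real.exp (-a))) with hM'
  have hM'2 : Real.exp (-a) * M' + M ≤ M' := by
    have : M / (1 - Real.exp (-a)) ≤ M' := le_max_right _ _
    rw [div_le_iff₀ h1'] at this
    linarith
  have key : ∀ k : ℕ, ∀ z ∈ shell n k, wt a s (nsq z) * ‖g z‖ ≤ M' := by
    intro k
    induction k with
    | zero =>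
      intro z hz
      have hzz : z ∈ closedBall (0 : Fin n → ℂ) ((3 : ℝ) + 1) :=
        closedBall_subset_closedBall (by norm_num) (shell_bounded 0 hz)
      calc wt a s (nsq z) * ‖g z‖ ≤ 1 * ‖g z‖ :=
            mul_le_mul_of_nonneg_right (wt_le_one ha.le hs (nsq_nonneg z)) (norm_nonneg _)
        _ ≤ M' := by rw [one_mul]; exact (hM₁ z hzz).trans (le_max_left _ _)
    | succ k ih =>
      intro z hz
      rcases Nat.lt_or_ge k 3 with hk | hk
      · have hzz : z ∈ closedBall (0 : Fin n → ℂ) ((3 : ℝ) + 1) := by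
          refine closedBall_subset_closedBall ?_ (shell_bounded (k + 1) hz)
          have : ((k + 1 : ℕ) : ℝ) ≤ 3 := by exact_mod_cast hk
          linarith
        calc wt a s (nsq z) * ‖g z‖ ≤ 1 * ‖g z‖ :=
              mul_le_mul_of_nonneg_right (wt_le_one ha.le hs (nsq_nonneg z)) (norm_nonneg _)
          _ ≤ M' := by rw [one_mul]; exact (hM₁ z hzz).trans (le_max_left _ _)
      · have hzn := nsq_nonneg z
        obtain ⟨hs1, hs2⟩ := shell_map hk hz
        have hih := ih _ hs1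
        have hsk0 := sk_nonneg hk
        have hsk := sk_le hk hzn (by have := hz.2; push_cast at this; linarith)
        have hnt : ‖(-(sk k : ℂ))‖ = sk k := by
          rw [norm_neg, Complex.norm_real, Real.norm_of_nonneg hsk0]
        have h2 := mvt hg z (hM z) (t := -(sk k : ℂ)) (by rw [hnt]; exact hsk)
        rw [hnt] at h2
        have hray : ray g z (-(sk k : ℂ)) = g (Complex.exp (-(sk k : ℂ)) • z) := rfl
        rw [hray] at h2
        set w := Complex.exp (-(sk k : ℂ)) • z with hw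
        have hwp := wt_pos a s hzn
        have hwp1 := wt_pos a (s + 1) hzn
        have h3 : ‖g z‖ ≤ ‖g w‖ + ‖g z - g w‖ := by
          have := norm_add_le (g w) (g z - g w)
          simpa using this
        have h4 : wt a s (nsq z) ≤ Real.exp (-a) * wt a s (nsq w) :=
          wt_anti ha.le hs (nsq_nonneg _) hs2
        have e1 : wt a s (nsq z) = wt a (s + 1) (nsq z) * (1 + nsq z) := by
          unfold wt
          rw [neg_add, Real.rpow_add (by positivity), Real.rpow_neg_one]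
          field_simp
        have h5 : wt a s (nsq z) * ‖g z - g w‖ ≤ M := by
          calc wt a s (nsq z) * ‖g z - g w‖
              ≤ wt a s (nsq z) * (M / wt a (s + 1) (nsq z) * (1 / (1 + nsq z))) := by
                apply mul_le_mul_of_nonneg_left _ hwp.le
                refine h2.trans ?_
                apply mul_le_mul_of_nonneg_left hsk (by positivity)
            _ = M := by
                rw [e1]; field_simp
        calc wt a s (nsq z) * ‖g z‖ ≤ wt a s (nsq z) * (‖g w‖ + ‖g z - g w‖) :=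
              mul_le_mul_of_nonneg_left h3 hwp.le
          _ = wt a s (nsq z) * ‖g w‖ + wt a s (nsq z) * ‖g z - g w‖ := by ring
          _ ≤ Real.exp (-a) * wt a s (nsq w) * ‖g w‖ + M :=
              add_le_add (mul_le_mul_of_nonneg_right h4 (norm_nonneg _)) h5
          _ = Real.exp (-a) * (wt a s (nsq w) * ‖g w‖) + M := by ring
          _ ≤ Real.exp (-a) * M' + M := by gcongr
          _ ≤ M' := hM'2
  exact ⟨M', fun z => key ⌊nsq z⌋₊ z ((mem_shell_iff z _).2 rfl)⟩

end Pool.Agent.T2h50.FR
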