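import Pool.Agent.T2h50.FR.Avg

open MeasureTheory Metric Set
open scoped ENNReal

namespace Pool.Agent.T2h50.FR

variable {n : ℕ}

/-- sub-mean value property along the complex rays -/
theorem submean {G : (Fin n → ℂ) → ℂ} (hG : Differentiable ℂ G) {p : ℝ} (hp : 0 < p)
    (z : Fin n → ℂ) {ζ : ℂ} (hζ : ‖ζ‖ ≤ 1 / (1 + nsq z)) :
    ‖ray G z ζ‖ₑ ^ p ≤ ENNReal.ofReal ((1 + nsq z) ^ 2) * av (fun w => ‖G w‖ₑ ^ p) z := by
  have hz := nsq_nonneg z
  set ρ : ℝ := 1 / (1 + nsq z) with hρ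
  have hρ0 : 0 < ρ := by positivity
  have h1 := Pool.Agent.H402R2.SubMean.rpow_mul_le_lintegral (g := ray G z) (w := ζ) (ρ := ρ)
    (p := p) hρ0 hp (differentiable_ray hG z).differentiableOn
  have hsub : ball ζ ρ ⊆ ball (0 : ℂ) (2 / (1 + nsq z)) := by
    intro x hx
    rw [mem_ball_zero_iff]
    rw [mem_ball, dist_eq_norm] at hx
    have h2 : ‖x‖ ≤ ‖x - ζ‖ + ‖ζ‖ := by
      have := norm_add_le (x - ζ) ζ
      simpa using this
    have h3 : 2 / (1 + nsq z) = ρ + ρ := by rw [hρ]; ring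
    rw [h3]
    linarith
  have h2 : ∫⁻ x in ball ζ ρ, ‖ray G z x‖ₑ ^ p ≤ av (fun w => ‖G w‖ₑ ^ p) z :=
    lintegral_mono_set hsub
  have h3 := h1.trans h2
  have e1 : ‖ray G z ζ‖ₑ ^ p = ENNReal.ofReal (‖ray G z ζ‖ ^ p) := by
    rw [← ofReal_norm, ENNReal.ofReal_rpow_of_nonneg (norm_nonneg _) hp.le]
  rw [e1]
  calc ENNReal.ofReal (‖ray G z ζ‖ ^ p)
      ≤ ENNReal.ofReal ((1 + nsq z) ^ 2 * (‖ray G z ζ‖ ^ p * (Real.pi * ρ ^ 2))) := by
        apply ENNReal.ofReal_le_ofReal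
        have hpi : (1:ℝ) ≤ Real.pi := by linarith [Real.pi_gt_three]
        have h4 : (1 + nsq z) ^ 2 * (‖ray G z ζ‖ ^ p * (Real.pi * ρ ^ 2)) =
            Real.pi * ‖ray G z ζ‖ ^ p := by
          rw [hρ]; field_simp
        rw [h4]
        have : 0 ≤ ‖ray G z ζ‖ ^ p := by positivity
        nlinarith
    _ = ENNReal.ofReal ((1 + nsq z) ^ 2) * ENNReal.ofReal (‖ray G z ζ‖ ^ p * (Real.pi * ρ ^ 2)) := by
        rw [ENNReal.ofReal_mul (by positivity)]
    _ ≤ _ := mul_le_mul' le_rfl h3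

/-- mean value inequality along a ray -/
theorem mvt {g : (Fin n → ℂ) → ℂ} (hg : Differentiable ℂ g) (z : Fin n → ℂ) {D r : ℝ}
    (hD : ∀ ζ : ℂ, ‖ζ‖ ≤ r → ‖ray (radial g) z ζ‖ ≤ D) {t : ℂ} (ht : ‖t‖ ≤ r) :
    ‖g z - ray g z t‖ ≤ D * ‖t‖ := by
  have h := (convex_closedBall (0 : ℂ) r).norm_image_sub_le_of_norm_deriv_le (𝕜 := ℂ)
    (f := ray g z) (C := D) (x := t) (y := 0)
    (fun x _ => (hasDerivAt_ray hg z x).differentiableAt)
    (fun x hx => by
      rw [(hasDerivAt_ray hg z x).deriv]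
      exact hD x (by simpa using hx))
    (by simpa using ht) (by simpa using (norm_nonneg t).trans ht)
  rw [ray_zero] at h
  simpa using h

/-- Cauchy estimate -/
theorem cauchy {f : (Fin n → ℂ) → ℂ} (hf : Differentiable ℂ f) (z : Fin n → ℂ) {M r : ℝ}
    (hr : 0 < r) (hM : ∀ ζ : ℂ, ‖ζ‖ ≤ r → ‖ray f z ζ‖ ≤ M) (N : ℕ) :
    ‖(radial^[N] f) z‖ ≤ N.factorial * M / r ^ N := by
  have h := Complex.norm_iteratedDeriv_le_of_forall_mem_sphere_norm_le (c := (0 : ℂ)) (C := M) N hr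
    (f := ray f z) (differentiable_ray hf z).diffContOnCl
    (fun x hx => hM x (by rw [mem_sphere_zero_iff_norm] at hx; exact hx.le))
  rw [iteratedDeriv_ray hf, ray_zero] at h
  exact h

/-- `(x + y)^p ≤ (1 + ε) x^p + C y^p` -/
theorem pow_ineq {p ε : ℝ} (hp : 0 < p) (hε : 0 < ε) : ∃ C : ℝ, 0 < C ∧ ∀ x y : ℝ, 0 ≤ x → 0 ≤ y →
    (x + y) ^ p ≤ (1 + ε) * x ^ p + C * y ^ p := by
  set η : ℝ := (1 + ε) ^ (1 / p) - 1 with hη
  have h1 : 1 < (1 + ε) ^ (1 / p) := Real.one_lt_rpow (by linarith) (by positivity)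
  have hη0 : 0 < η := by rw [hη]; linarith
  have h2 : (1 + η) ^ p = 1 + ε := by
    rw [hη, add_sub_cancel, ← Real.rpow_mul (by positivity), one_div, inv_mul_cancel₀ hp.ne',
      Real.rpow_one]
  refine ⟨(1 / η + 1) ^ p, by positivity, fun x y hx hy => ?_⟩
  rcases le_total y (η * x) with h | h
  · have h3 : (x + y) ^ p ≤ ((1 + η) * x) ^ p :=
      Real.rpow_le_rpow (by positivity) (by linarith) hp.le
    rw [Real.mul_rpow (by positivity) hx, h2] at h3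
    have : 0 ≤ (1 / η + 1) ^ p * y ^ p := by positivity
    linarith
  · have h4 : x ≤ 1 / η * y := by
      rw [one_div, inv_mul_eq_div, le_div_iff₀ hη0]; linarith
    have h3 : (x + y) ^ p ≤ ((1 / η + 1) * y) ^ p :=
      Real.rpow_le_rpow (by positivity) (by linarith) hp.le
    rw [Real.mul_rpow (by positivity) hy] at h3
    have : 0 ≤ (1 + ε) * x ^ p := by positivity
    linarith

theorem wt_anti {a s : ℝ} (ha : 0 ≤ a) (hs : 0 ≤ s) {u v : ℝ} (hv : 0 ≤ v) (h : v + 1 ≤ u) :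
    wt a s u ≤ Real.exp (-a) * wt a s v := by
  unfold wt
  have hu : 0 ≤ u := by linarith
  have e1 : Real.exp (-(a * u)) ≤ Real.exp (-a) * Real.exp (-(a * v)) := by
    rw [← Real.exp_add]
    apply Real.exp_le_exp.2
    nlinarith
  have e2 : (1 + u) ^ (-s) ≤ (1 + v) ^ (-s) :=
    Real.rpow_le_rpow_of_nonpos (by positivity) (by linarith) (by linarith)
  calc Real.exp (-(a * u)) * (1 + u) ^ (-s)
      ≤ (Real.exp (-a) * Real.exp (-(a * v))) * (1 + v) ^ (-s) :=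
        mul_le_mul e1 e2 (by positivity) (by positivity)
    _ = _ := by ring

/-- the contraction from the shell `k + 1 ≤ |z|² < k + 2` to the shell `k ≤ |z|² < k + 1` -/
noncomputable def sk (k : ℕ) : ℝ := Real.log (((k : ℝ) + 1) / k) / 2

theorem sk_nonneg {k : ℕ} (hk : 3 ≤ k) : 0 ≤ sk k := by
  unfold sk
  have hk' : (3:ℝ) ≤ k := by exact_mod_cast hk
  have : 1 ≤ ((k : ℝ) + 1) / k := by rw [le_div_iff₀ (by positivity)]; linarith
  have := Real.log_nonneg this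
  linarith

theorem sk_le {k : ℕ} (hk : 3 ≤ k) {u : ℝ} (hu : 0 ≤ u) (h : u < k + 2) :
    sk k ≤ 1 / (1 + u) := by
  unfold sk
  have hk' : (3:ℝ) ≤ k := by exact_mod_cast hk
  have h1 : Real.log (((k : ℝ) + 1) / k) ≤ 1 / k := by
    have := Real.log_le_sub_one_of_pos (show 0 < ((k : ℝ) + 1) / k by positivity)
    have e : ((k : ℝ) + 1) / k - 1 = 1 / k := by field_simp; ring
    linarith
  have h2 : 1 / (k : ℝ) / 2 ≤ 1 / (1 + u) := by
    rw [div_div]
    apply one_div_le_one_div_of_le (by positivity)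
    linarith
  linarith

theorem exp_sk {k : ℕ} (hk : 3 ≤ k) : ‖Complex.exp (-(sk k : ℂ))‖ ^ 2 = (k : ℝ) / (k + 1) := by
  have hk' : (3:ℝ) ≤ k := by exact_mod_cast hk
  rw [Complex.norm_exp, ← Real.exp_nat_mul]
  simp only [Complex.neg_re, Complex.ofReal_re]
  have e : ((2 : ℕ) : ℝ) * -sk k = -Real.log (((k : ℝ) + 1) / k) := by
    unfold sk; push_cast; ring
  rw [e, Real.exp_neg, Real.exp_log (by positivity), inv_div]

end Pool.Agent.T2h50.FR
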