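import Pool.Agent.T2h50.FR.Step

open MeasureTheory Metric Set
open scoped ENNReal

namespace Pool.Agent.T2h50.FR

variable {n : ℕ}

theorem shell_map {k : ℕ} (hk : 3 ≤ k) {z : Fin n → ℂ} (hz : z ∈ shell n (k + 1)) :
    Complex.exp (-(sk k : ℂ)) • z ∈ shell n k ∧
      nsq (Complex.exp (-(sk k : ℂ)) • z) + 1 ≤ nsq z := by
  have hk' : (3:ℝ) ≤ k := by exact_mod_cast hk
  obtain ⟨h1, h2⟩ := hz
  push_cast at h1 h2
  rw [shell, Set.mem_ofPred_eq, nsq_smul, exp_sk hk]
  have e : (k : ℝ) / (k + 1) * nsq z = nsq z - nsq z / (k + 1) := by field_simp; ring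
  have h3 : 1 ≤ nsq z / (k + 1) := by rw [le_div_iff₀ (by positivity)]; linarith
  refine ⟨⟨?_, ?_⟩, ?_⟩
  · rw [div_mul_eq_mul_div, le_div_iff₀ (by positivity)]
    nlinarith
  · rw [e]; linarith
  · rw [e]; linarith

theorem shell_rec {p a s ε : ℝ} (hp : 0 < p) (ha : 0 ≤ a) (hs : 0 ≤ s) (hε : 0 < ε) :
    ∃ C : ℝ, 0 < C ∧ ∀ g : (Fin n → ℂ) → ℂ, Differentiable ℂ g → ∀ k : ℕ, 3 ≤ k →
    ∫⁻ z in shell n (k + 1), ENNReal.ofReal (wt a s (nsq z)) * ‖g z‖ₑ ^ p ≤
      ENNReal.ofReal ((1 + ε) * Real.exp (-a) * (((k : ℝ) + 1) / k) ^ n) *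
        (∫⁻ z in shell n k, ENNReal.ofReal (wt a s (nsq z)) * ‖g z‖ₑ ^ p) +
      ENNReal.ofReal C * ∫⁻ z in shell n (k + 1),
        ENNReal.ofReal ((1 + nsq z) ^ 2 * wt a (s + p) (nsq z)) * av (fun w => ‖radial g w‖ₑ ^ p) z := by
  obtain ⟨C, hC0, hC⟩ := pow_ineq hp hε
  refine ⟨C, hC0, fun g hg k hk => ?_⟩
  set c : ℂ := Complex.exp (-(sk k : ℂ)) with hc
  set Ψ : (Fin n → ℂ) → ℝ≥0∞ := fun w => ENNReal.ofReal (wt a s (nsq w)) * ‖g w‖ₑ ^ p with hΨ
  have hk' : (3:ℝ) ≤ k := by exact_mod_cast hk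
  have hwm2 : Measurable (fun w : Fin n → ℂ => wt a s (nsq w)) := by
    unfold wt
    have := (continuous_nsq (n := n)).measurable
    fun_prop
  have hΨm : Measurable Ψ := hwm2.ennreal_ofReal.mul (measurable_pow hg.continuous p)
  have hpt : ∀ z ∈ shell n (k + 1), Ψ z ≤
      ENNReal.ofReal ((1 + ε) * Real.exp (-a)) * Ψ (c • z) +
      ENNReal.ofReal C * (ENNReal.ofReal ((1 + nsq z) ^ 2 * wt a (s + p) (nsq z)) *
        av (fun w => ‖radial g w‖ₑ ^ p) z) := by
    intro z hz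
    have hzn := nsq_nonneg z
    have hw1 := wt_pos a (s + p) hzn
    by_cases hfin : av (fun w => ‖radial g w‖ₑ ^ p) z = ⊤
    · rw [hfin, ENNReal.mul_top, ENNReal.mul_top, add_top]
      · exact le_top
      · simpa using hC0
      · have : 0 < (1 + nsq z) ^ 2 * wt a (s + p) (nsq z) := by positivity
        simpa using this
    · obtain ⟨M, hM0, hM, hMp⟩ := bound_of_av (differentiable_radial hg) hp z hfin
      obtain ⟨hs1, hs2⟩ := shell_map hk hz
      rw [← hc] at hs1 hs2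
      have hsk0 := sk_nonneg hk
      have hsk := sk_le hk hzn (by have := hz.2; push_cast at this; linarith)
      have hnt : ‖(-(sk k : ℂ))‖ = sk k := by
        rw [norm_neg, Complex.norm_real, Real.norm_of_nonneg hsk0]
      have h1 := mvt hg z hM (t := -(sk k : ℂ)) (by rw [hnt]; exact hsk)
      rw [hnt] at h1
      have hray : ray g z (-(sk k : ℂ)) = g (c • z) := rfl
      rw [hray] at h1
      have h2 : ‖g z‖ ≤ ‖g (c • z)‖ + M * (1 + nsq z)⁻¹ := by
        have h3 : ‖g z‖ ≤ ‖g (c • z)‖ + ‖g z - g (c • z)‖ := by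
          have := norm_add_le (g (c • z)) (g z - g (c • z))
          simpa using this
        have h4 : M * sk k ≤ M * (1 + nsq z)⁻¹ := by
          rw [← one_div]
          exact mul_le_mul_of_nonneg_left hsk hM0
        linarith
      have h3 : ‖g z‖ ^ p ≤ (1 + ε) * ‖g (c • z)‖ ^ p + C * (M * (1 + nsq z)⁻¹) ^ p :=
        (Real.rpow_le_rpow (norm_nonneg _) h2 hp.le).trans
          (hC _ _ (norm_nonneg _) (by positivity))
      have h4 : wt a s (nsq z) ≤ Real.exp (-a) * wt a s (nsq (c • z)) :=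
        wt_anti ha hs (nsq_nonneg _) hs2
      have hwp := wt_pos a s hzn
      have hwp' := wt_pos a s (nsq_nonneg (c • z))
      have e1 : wt a s (nsq z) * (M * (1 + nsq z)⁻¹) ^ p = wt a (s + p) (nsq z) * M ^ p := by
        unfold wt
        rw [Real.mul_rpow hM0 (by positivity), Real.inv_rpow (by positivity), neg_add,
          Real.rpow_add (by positivity), Real.rpow_neg (by positivity) p]
        ring
      have h5 : wt a s (nsq z) * ‖g z‖ ^ p ≤
          (1 + ε) * Real.exp (-a) * (wt a s (nsq (c • z)) * ‖g (c • z)‖ ^ p) +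
          C * (wt a (s + p) (nsq z) * M ^ p) := by
        calc wt a s (nsq z) * ‖g z‖ ^ p
            ≤ wt a s (nsq z) * ((1 + ε) * ‖g (c • z)‖ ^ p + C * (M * (1 + nsq z)⁻¹) ^ p) :=
              mul_le_mul_of_nonneg_left h3 hwp.le
          _ = wt a s (nsq z) * ((1 + ε) * ‖g (c • z)‖ ^ p) +
              C * (wt a s (nsq z) * (M * (1 + nsq z)⁻¹) ^ p) := by ring
          _ ≤ (Real.exp (-a) * wt a s (nsq (c • z))) * ((1 + ε) * ‖g (c • z)‖ ^ p) +
              C * (wt a s (nsq z) * (M * (1 + nsq z)⁻¹) ^ p) := by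
              gcongr
          _ = _ := by rw [e1]; ring
      simp only [hΨ]
      rw [enorm_rpow_eq hp, enorm_rpow_eq hp, ENNReal.ofReal_mul (by positivity : (0:ℝ) ≤ (1 + nsq z) ^ 2),
        mul_right_comm (ENNReal.ofReal ((1 + nsq z) ^ 2)), ← hMp, ← ENNReal.ofReal_mul hwp.le,
        ← ENNReal.ofReal_mul hwp'.le, ← ENNReal.ofReal_mul (by positivity : (0:ℝ) ≤ M ^ p),
        ← ENNReal.ofReal_mul hC0.le, ← ENNReal.ofReal_mul (by positivity),
        ← ENNReal.ofReal_add (by positivity) (by positivity)]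
      apply ENNReal.ofReal_le_ofReal
      refine h5.trans (le_of_eq ?_)
      ring
  have hcne : c ≠ 0 := Complex.exp_ne_zero _
  have hfirst : ∫⁻ z in shell n (k + 1), Ψ (c • z) ≤
      ENNReal.ofReal ((((k : ℝ) + 1) / k) ^ n) * ∫⁻ z in shell n k, Ψ z := by
    have h1 : ∫⁻ z in shell n (k + 1), Ψ (c • z) ≤ ∫⁻ z, (shell n k).indicator Ψ (c • z) := by
      rw [← lintegral_indicator (measurable_shell _)]
      apply lintegral_mono
      intro z
      by_cases hz : z ∈ shell n (k + 1)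
      · simp only [indicator_of_mem hz, indicator_of_mem (shell_map hk hz).1, hc, le_refl]
      · simp only [indicator_of_notMem hz, zero_le]
    refine h1.trans ?_
    rw [lintegral_smul (hΨm.indicator (measurable_shell k)) hcne,
      lintegral_indicator (measurable_shell k), pow_mul, hc, exp_sk hk, ← inv_pow, inv_div]
  calc ∫⁻ z in shell n (k + 1), Ψ z
      ≤ ∫⁻ z in shell n (k + 1), (ENNReal.ofReal ((1 + ε) * Real.exp (-a)) * Ψ (c • z) +
      ENNReal.ofReal C * (ENNReal.ofReal ((1 + nsq z) ^ 2 * wt a (s + p) (nsq z)) *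
        av (fun w => ‖radial g w‖ₑ ^ p) z)) := setLIntegral_mono' (measurable_shell _) hpt
    _ = ENNReal.ofReal ((1 + ε) * Real.exp (-a)) * (∫⁻ z in shell n (k + 1), Ψ (c • z)) +
        ENNReal.ofReal C * ∫⁻ z in shell n (k + 1),
          (ENNReal.ofReal ((1 + nsq z) ^ 2 * wt a (s + p) (nsq z)) *
            av (fun w => ‖radial g w‖ₑ ^ p) z) := by
        rw [lintegral_add_left, lintegral_const_mul' _ _ ENNReal.ofReal_ne_top,
          lintegral_const_mul' _ _ ENNReal.ofReal_ne_top]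
        have : Measurable fun z : Fin n → ℂ => c • z := by fun_prop
        exact (hΨm.comp this).const_mul _
    _ ≤ _ := by
        refine add_le_add ?_ le_rfl
        rw [ENNReal.ofReal_mul (by positivity : (0:ℝ) ≤ (1 + ε) * Real.exp (-a)), mul_assoc]
        exact mul_le_mul' le_rfl hfirst

/-- the converse implication, one step, finite exponents -/
theorem step {p a s : ℝ} (hp : 0 < p) (ha : 0 < a) (hs : 0 ≤ s) {g : (Fin n → ℂ) → ℂ}
    (hg : Differentiable ℂ g) (h : J p a (s + p) (radial g) ≠ ⊤) : J p a s g ≠ ⊤ := by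
  -- choice of `ε`
  obtain ⟨ε, hε0, hε⟩ : ∃ ε : ℝ, 0 < ε ∧ (1 + ε) ^ 2 * Real.exp (-a) < 1 := by
    have h1 : Real.exp (-a) < 1 := by rw [Real.exp_lt_one_iff]; linarith
    have hcont : Filter.Tendsto (fun ε : ℝ => (1 + ε) ^ 2 * Real.exp (-a)) (nhdsWithin 0 (Ioi 0))
        (nhds ((1 + 0) ^ 2 * Real.exp (-a))) := by
      apply tendsto_nhdsWithin_of_tendsto_nhds
      exact (by fun_prop : Continuous fun ε : ℝ => (1 + ε) ^ 2 * Real.exp (-a)).tendsto 0
    have h2 : ∀ᶠ ε in nhdsWithin (0:ℝ) (Ioi 0), (1 + ε) ^ 2 * Real.exp (-a) < 1 := by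
      apply hcont.eventually_lt_const
      simpa using h1
    obtain ⟨ε, h3, h4⟩ := (h2.and self_mem_nhdsWithin).exists
    exact ⟨ε, h4, h3⟩
  obtain ⟨k₀, hk₀, hk₀3⟩ : ∃ k₀ : ℕ, (∀ k : ℕ, k₀ ≤ k → (((k : ℝ) + 1) / k) ^ n ≤ 1 + ε) ∧ 3 ≤ k₀ := by
    have h1 : Filter.Tendsto (fun k : ℕ => (((k : ℝ) + 1) / k) ^ n) Filter.atTop (nhds 1) := by
      have h2 : Filter.Tendsto (fun k : ℕ => ((k : ℝ) + 1) / k) Filter.atTop (nhds 1) := by
        have h3 : Filter.Tendsto (fun k : ℕ => 1 + 1 / (k : ℝ)) Filter.atTop (nhds (1 + 0)) :=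
          tendsto_const_nhds.add tendsto_one_div_atTop_nhds_zero_nat
        rw [add_zero] at h3
        refine h3.congr' ?_
        filter_upwards [Filter.eventually_gt_atTop 0] with k hk
        have : (0:ℝ) < k := by exact_mod_cast hk
        field_simp
      have := h2.pow n
      rwa [one_pow] at this
    have h2 : ∀ᶠ k : ℕ in Filter.atTop, (((k : ℝ) + 1) / k) ^ n ≤ 1 + ε :=
      h1.eventually (Iic_mem_nhds (by linarith))
    obtain ⟨k₁, hk₁⟩ := Filter.eventually_atTop.1 h2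
    exact ⟨max k₁ 3, fun k hk => hk₁ k (le_trans (le_max_left _ _) hk), le_max_right _ _⟩
  obtain ⟨C, hC0, hC⟩ := shell_rec (n := n) hp ha.le hs hε0
  obtain ⟨C', hC'⟩ := av_bound n (a := a) (s := s + p) ha.le (by linarith)
  have h1 := hC' (fun w => ‖radial g w‖ₑ ^ p) (measurable_pow (differentiable_radial hg).continuous p)
  unfold J
  rw [lintegral_shells]
  apply tsum_ne_top_of_rec (B := fun k => ENNReal.ofReal C * ∫⁻ z in shell n k,
        ENNReal.ofReal ((1 + nsq z) ^ 2 * wt a (s + p) (nsq z)) * av (fun w => ‖radial g w‖ₑ ^ p) z)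
    (ρ := (1 + ε) ^ 2 * Real.exp (-a)) (by positivity) hε
    (fun k => shell_finite hp ha.le hs hg.continuous k) _ (k₀ := k₀)
  · intro k hk
    refine (hC g hg k (hk₀3.trans hk)).trans ?_
    refine add_le_add (mul_le_mul' (ENNReal.ofReal_le_ofReal ?_) le_rfl) le_rfl
    have h2 := hk₀ k hk
    have h3 := Real.exp_pos (-a)
    calc (1 + ε) * Real.exp (-a) * (((k : ℝ) + 1) / k) ^ n ≤ (1 + ε) * Real.exp (-a) * (1 + ε) := by
          gcongr
      _ = (1 + ε) ^ 2 * Real.exp (-a) := by ring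
  · rw [ENNReal.tsum_mul_left, ← lintegral_shells]
    exact ENNReal.mul_ne_top ENNReal.ofReal_ne_top
      (ne_top_of_le_ne_top (ENNReal.mul_ne_top ENNReal.ofReal_ne_top h) h1)

end Pool.Agent.T2h50.FR
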