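import Pool.Agent.T2h50.FR.Fwd

open MeasureTheory Metric Set
open scoped ENNReal

namespace Pool.Agent.T2h50.FR

variable {n : ℕ}

theorem tsum_ne_top_of_rec {A B : ℕ → ℝ≥0∞} {ρ : ℝ} (h0 : 0 ≤ ρ) (h1 : ρ < 1)
    (hA : ∀ k, A k ≠ ⊤) (hB : ∑' k, B k ≠ ⊤) {k₀ : ℕ}
    (h : ∀ k, k₀ ≤ k → A (k + 1) ≤ ENNReal.ofReal ρ * A k + B (k + 1)) : ∑' k, A k ≠ ⊤ := by
  set T : ℝ≥0∞ := A k₀ + ∑' k, B k with hT
  have hTtop : T ≠ ⊤ := ENNReal.add_ne_top.2 ⟨hA _, hB⟩
  set D : ℝ≥0∞ := T / ENNReal.ofReal (1 - ρ) with hD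
  have h1' : 0 < 1 - ρ := by linarith
  have hDtop : D ≠ ⊤ := ENNReal.div_ne_top hTtop (by simpa using h1')
  have hTD : T + ENNReal.ofReal ρ * D = D := by
    have e : T = ENNReal.ofReal (1 - ρ) * D := by
      rw [hD, ENNReal.mul_div_cancel (by simpa using h1') ENNReal.ofReal_ne_top]
    conv_lhs => rw [e]
    rw [← add_mul, ← ENNReal.ofReal_add h1'.le h0]
    simp
  have key : ∀ m, ∑ j ∈ Finset.range m, A (k₀ + j) ≤ D := by
    intro m
    induction m with
    | zero => simp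
    | succ m ih =>
      rw [Finset.sum_range_succ']
      have e1 : ∑ j ∈ Finset.range m, A (k₀ + (j + 1)) ≤
          ENNReal.ofReal ρ * ∑ j ∈ Finset.range m, A (k₀ + j) + ∑' k, B k := by
        calc ∑ j ∈ Finset.range m, A (k₀ + (j + 1))
            ≤ ∑ j ∈ Finset.range m, (ENNReal.ofReal ρ * A (k₀ + j) + B (k₀ + j + 1)) :=
              Finset.sum_le_sum fun j _ => h (k₀ + j) (by omega)
          _ = ENNReal.ofReal ρ * ∑ j ∈ Finset.range m, A (k₀ + j) +
              ∑ j ∈ Finset.range m, B (k₀ + j + 1) := by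
              rw [Finset.sum_add_distrib, Finset.mul_sum]
          _ ≤ _ := by
              gcongr
              have hinj : Function.Injective (fun j : ℕ => k₀ + j + 1) := fun a b hab => by
                simp only at hab; omega
              calc ∑ j ∈ Finset.range m, B (k₀ + j + 1) ≤ ∑' j, B (k₀ + j + 1) :=
                    ENNReal.sum_le_tsum _
                _ ≤ ∑' k, B k := ENNReal.tsum_comp_le_tsum_of_injective hinj B
      calc ∑ j ∈ Finset.range m, A (k₀ + (j + 1)) + A (k₀ + 0)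
          ≤ (ENNReal.ofReal ρ * D + ∑' k, B k) + A k₀ := by
            rw [add_zero]
            gcongr
            exact e1.trans (by gcongr)
        _ = T + ENNReal.ofReal ρ * D := by rw [hT]; ring
        _ = D := hTD
  have h2 : ∑' j, A (k₀ + j) ≤ D := ENNReal.tsum_le_of_sum_range_le key
  have h3 : ∑' k, A k = ∑ k ∈ Finset.range k₀, A k + ∑' j, A (j + k₀) :=
    (ENNReal.summable.sum_add_tsum_nat_add' ).symm
  rw [h3]
  apply ENNReal.add_ne_top.2
  refine ⟨?_, ?_⟩
  · exact ENNReal.sum_ne_top.2 fun k _ => hA k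
  · have : ∀ j, A (j + k₀) = A (k₀ + j) := fun j => by rw [add_comm]
    simp only [this]
    exact ne_top_of_le_ne_top hDtop h2

/-- the shell `k ≤ |z|² < k + 1` -/
def shell (n : ℕ) (k : ℕ) : Set (Fin n → ℂ) := {z | (k : ℝ) ≤ nsq z ∧ nsq z < k + 1}

theorem measurable_shell (k : ℕ) : MeasurableSet (shell n k) := by
  have := (continuous_nsq (n := n)).measurable
  apply MeasurableSet.inter
  · exact measurableSet_le measurable_const this
  · exact measurableSet_lt this measurable_const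

theorem mem_shell_iff (z : Fin n → ℂ) (k : ℕ) : z ∈ shell n k ↔ ⌊nsq z⌋₊ = k := by
  have hz := nsq_nonneg z
  rw [Nat.floor_eq_iff hz]
  rfl

theorem lintegral_shells {F : (Fin n → ℂ) → ℝ≥0∞} :
    ∫⁻ z, F z = ∑' k, ∫⁻ z in shell n k, F z := by
  rw [← lintegral_iUnion measurable_shell]
  · have : (⋃ k, shell n k) = univ := by
      apply eq_univ_of_forall
      intro z
      exact mem_iUnion.2 ⟨⌊nsq z⌋₊, (mem_shell_iff z _).2 rfl⟩
    rw [this, setLIntegral_univ]
  · intro i j hij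
    rw [Function.onFun, Set.disjoint_left]
    intro z h1 h2
    exact hij (((mem_shell_iff z _).1 h1).symm.trans ((mem_shell_iff z _).1 h2))

theorem shell_bounded (k : ℕ) : shell n k ⊆ closedBall 0 ((k : ℝ) + 1) := by
  intro z hz
  rw [mem_closedBall_zero_iff, pi_norm_le_iff_of_nonneg (by positivity)]
  intro i
  have h1 : ‖z i‖ ^ 2 ≤ nsq z := Finset.single_le_sum (f := fun k => ‖z k‖ ^ 2)
    (fun _ _ => by positivity) (Finset.mem_univ i)
  have h2 := hz.2
  have hk : (0:ℝ) ≤ k := by positivity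
  nlinarith [norm_nonneg (z i)]

theorem shell_finite {p a s : ℝ} (hp : 0 < p) (ha : 0 ≤ a) (hs : 0 ≤ s) {g : (Fin n → ℂ) → ℂ}
    (hg : Continuous g) (k : ℕ) :
    ∫⁻ z in shell n k, ENNReal.ofReal (wt a s (nsq z)) * ‖g z‖ₑ ^ p ≠ ⊤ := by
  obtain ⟨M, hM⟩ := (isCompact_closedBall (0 : Fin n → ℂ) ((k : ℝ) + 1)).exists_bound_of_continuousOn
    hg.continuousOn
  have h1 : ∫⁻ z in shell n k, ENNReal.ofReal (wt a s (nsq z)) * ‖g z‖ₑ ^ p ≤
      ∫⁻ z in closedBall (0 : Fin n → ℂ) ((k : ℝ) + 1), ENNReal.ofReal (M ^ p) := by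
    refine le_trans ?_ (lintegral_mono_set (shell_bounded k))
    apply setLIntegral_mono' (measurable_shell k)
    intro z hz
    have hzn := nsq_nonneg z
    have hw : wt a s (nsq z) ≤ 1 := by
      unfold wt
      have e1 : Real.exp (-(a * nsq z)) ≤ 1 := by
        rw [Real.exp_le_one_iff]
        have : 0 ≤ a * nsq z := by positivity
        linarith
      have e2 : (1 + nsq z) ^ (-s) ≤ 1 :=
        Real.rpow_le_one_of_one_le_of_nonpos (by linarith) (by linarith)
      calc _ ≤ (1:ℝ) * 1 := mul_le_mul e1 e2 (by positivity) (by norm_num)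
        _ = 1 := one_mul 1
    rw [enorm_rpow_eq hp, ← ENNReal.ofReal_mul (wt_pos _ _ hzn).le]
    apply ENNReal.ofReal_le_ofReal
    have h3 := hM z (shell_bounded k hz)
    have h4 : ‖g z‖ ^ p ≤ M ^ p := Real.rpow_le_rpow (norm_nonneg _) h3 hp.le
    have h5 : 0 ≤ ‖g z‖ ^ p := by positivity
    calc wt a s (nsq z) * ‖g z‖ ^ p ≤ 1 * ‖g z‖ ^ p := mul_le_mul_of_nonneg_right hw h5
      _ ≤ M ^ p := by rw [one_mul]; exact h4
  refine ne_top_of_le_ne_top ?_ h1
  rw [setLIntegral_const]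
  exact ENNReal.mul_ne_top ENNReal.ofReal_ne_top
    (isCompact_closedBall (0 : Fin n → ℂ) ((k : ℝ) + 1)).measure_lt_top.ne

end Pool.Agent.T2h50.FR
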